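import Mathlib

namespace Pool.Agent.Results.MP_6c91b3_co.Counter

open SimpleGraph Finset

/-- Exactly half of the vertices have degree 2 and the other half have degree 3. -/
def InD23 {n : ℕ} (G : SimpleGraph (Fin n)) : Prop :=
  2 * {v | (G.neighborSet v).ncard = 2}.ncard = n ∧ 2 * {v | (G.neighborSet v).ncard = 3}.ncard = n

/-- `G` lies in the class, has girth `g`, and no graph of the class with fewer vertices has
girth `g`. -/
def Extremal {n : ℕ} (G : SimpleGraph (Fin n)) (g : ℕ) : Prop :=
  InD23 G ∧ G.egirth = g ∧ ∀ m < n, ∀ G' : SimpleGraph (Fin m), InD23 G' → G'.egirth ≠ g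

def G8 : SimpleGraph (Fin 8) :=
  SimpleGraph.fromRel fun u v => (u.val, v.val) ∈
    ([(0, 2), (0, 3), (1, 2), (1, 3), (0, 4), (4, 5), (5, 1), (2, 6), (6, 7), (7, 3)] :
      List (ℕ × ℕ))

instance : DecidableRel G8.Adj := fun u v => by
  unfold G8; rw [fromRel_adj]; infer_instance

lemma ncard_eq_degree {n : ℕ} (G : SimpleGraph (Fin n)) [DecidableRel G.Adj] (v : Fin n) :
    (G.neighborSet v).ncard = G.degree v := by
  rw [← card_neighborFinset_eq_degree, ← Set.ncard_coe_finset, coe_neighborFinset]

lemma inD23_iff {n : ℕ} (G : SimpleGraph (Fin n)) [DecidableRel G.Adj] :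
    InD23 G ↔ 2 * (univ.filter fun v => G.degree v = 2).card = n ∧
      2 * (univ.filter fun v => G.degree v = 3).card = n := by
  unfold InD23
  simp only [ncard_eq_degree]
  rw [← Set.ncard_coe_finset, ← Set.ncard_coe_finset]
  simp

lemma small (m : ℕ) (hm : m < 8) (G : SimpleGraph (Fin m)) (h : InD23 G) : G.egirth ≠ (4 : ℕ) := by
  classical
  rw [inD23_iff] at h
  obtain ⟨h2, h3⟩ := h
  have hdisj : Disjoint (univ.filter fun v => G.degree v = 2)
      (univ.filter fun v => G.degree v = 3) := by
    rw [disjoint_filter]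
    intro v _ h
    omega
  have hall : (univ.filter fun v => G.degree v = 2) ∪ (univ.filter fun v => G.degree v = 3) =
      univ := by
    apply eq_univ_of_card
    rw [card_union_of_disjoint hdisj, Fintype.card_fin]
    omega
  have hodd : (univ.filter fun v => Odd (G.degree v)) = univ.filter fun v => G.degree v = 3 := by
    ext v
    have : v ∈ (univ.filter fun v => G.degree v = 2) ∪ (univ.filter fun v => G.degree v = 3) := by
      rw [hall]; exact mem_univ v
    simp only [mem_union, mem_filter, mem_univ, true_and] at this ⊢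
    rcases this with h | h <;> rw [h] <;> decide
  have hev := G.even_card_odd_degree_vertices
  rw [hodd] at hev
  obtain ⟨k, hk⟩ := hev
  have hm' : m = 0 ∨ m = 4 := by omega
  rcases hm' with rfl | rfl
  · have : G = ⊥ := by
      ext u
      exact u.elim0
    rw [this, egirth_bot]
    simp
  · obtain ⟨u, hu, w, hw, huw⟩ := one_lt_card.1
      (show 1 < (univ.filter fun v => G.degree v = 3).card by omega)
    have full : ∀ u, G.degree u = 3 → ∀ x, x ≠ u → G.Adj u x := by
      intro u hu x hx
      have h1 : G.neighborFinset u = univ.erase u := by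
        apply eq_of_subset_of_card_le
        · intro y hy
          exact mem_erase.2 ⟨((mem_neighborFinset _ _ _).1 hy).ne', mem_univ _⟩
        · rw [card_neighborFinset_eq_degree, hu]
          simp
      rw [← mem_neighborFinset, h1]
      exact mem_erase.2 ⟨hx, mem_univ _⟩
    have hx : ∀ u w : Fin 4, ∃ x, x ≠ u ∧ x ≠ w := by decide
    obtain ⟨x, hxu, hxw⟩ := hx u w
    have h3c : G.IsNClique 3 {u, w, x} := is3Clique_triple_iff.2
      ⟨full u (mem_filter.1 hu).2 w huw.symm, full u (mem_filter.1 hu).2 x hxu,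
        full w (mem_filter.1 hw).2 x hxw⟩
    obtain ⟨a, p, hp, hl⟩ := is3Clique_iff_exists_cycle_length_three.1 ⟨_, h3c⟩
    have := egirth_le_length hp
    rw [hl] at this
    intro h4
    rw [h4] at this
    exact absurd this (by decide)

lemma girth8 : G8.egirth = (4 : ℕ) := by
  apply le_antisymm
  · let p : G8.Walk 0 0 := Walk.cons (by decide : G8.Adj 0 2) (Walk.cons (by decide : G8.Adj 2 1)
      (Walk.cons (by decide : G8.Adj 1 3) (Walk.cons (by decide : G8.Adj 3 0) Walk.nil)))
    have hp : p.IsCycle := by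
      rw [Walk.isCycle_def, Walk.isTrail_def]
      decide
    exact egirth_le_length hp
  · rw [le_egirth]
    intro a w hw
    have h3 := hw.three_le_length
    have : w.length ≠ 3 := by
      intro h
      obtain ⟨s, hs⟩ := is3Clique_iff_exists_cycle_length_three.2 ⟨a, w, hw, h⟩
      obtain ⟨x, y, z, h1, h2, h3, _⟩ := is3Clique_iff.1 hs
      have key : ∀ x y : Fin 8, G8.Adj x y → ∀ z, G8.Adj x z → ¬ G8.Adj y z := by decide
      exact key x y h1 z h2 h3
    exact_mod_cast (show 4 ≤ w.length by omega)

theorem result :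
    ∃ (g n : ℕ) (G : SimpleGraph (Fin n)), 3 ≤ g ∧ Extremal G g ∧
      ∃ u v, G.Adj u v ∧ (G.neighborSet u).ncard = 2 ∧ (G.neighborSet v).ncard = 2 := by
  refine ⟨4, 8, G8, by norm_num, ⟨?_, girth8, small⟩, 4, 5, by decide, ?_, ?_⟩
  · rw [inD23_iff]
    decide
  · rw [ncard_eq_degree]
    decide
  · rw [ncard_eq_degree]
    decide

end Pool.Agent.Results.MP_6c91b3_co.Counter
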